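import Pool.Agent.Y321.PD.Lam

/-!
# MP_bd2638_an: Anosov diffeomorphisms with constant unstable periodic data
-/

set_option autoImplicit false

open scoped Manifold ContDiff Topology Bundle
open Set Filter Bundle

namespace Pool.Agent.Results.MP_bd2638_an.StableDataDichotomy

open Pool.Agent.H721R2 Pool.Agent.H789R2.AN

/-- `|det (D | W)|` for a subspace `W` preserved by `D` (and `0` if `W` is not preserved). -/
noncomputable def detOn {V : Type*} [AddCommGroup V] [Module ℝ V] (D : V →ₗ[ℝ] V)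
    (W : Submodule ℝ V) : ℝ :=
  open Classical in if h : ∀ v ∈ W, D v ∈ W then |LinearMap.det (D.restrict h)| else 0

/-- A subspace of a tangent space of `M`, as a subspace of the model space `E`. -/
def toE (E : Type*) [NormedAddCommGroup E] [NormedSpace ℝ E]
    {M : Type*} [TopologicalSpace M] [ChartedSpace E M] {x : M}
    (W : Submodule ℝ (TangentSpace 𝓘(ℝ, E) x)) : Submodule ℝ E := W

/-- `Λ(p) = (1/k) log |det (D(fᵏ)(p) | V p)|`, for `k ≥ 1` and a point `p` with `fᵏ(p) = p`, where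
`V` is an invariant bundle: for `V = Eu` this is the sum `Λᵘ(p)` of the positive Lyapunov exponents
of `f` at `p`, for `V = Es` it is the sum `Λˢ(p)` of the negative ones (with multiplicity). -/
noncomputable def Lam (E : Type*) [NormedAddCommGroup E] [NormedSpace ℝ E]
    {M : Type*} [TopologicalSpace M] [ChartedSpace E M] (f : M → M)
    (V : ∀ x : M, Submodule ℝ (TangentSpace 𝓘(ℝ, E) x)) (k : ℕ) (p : M) : ℝ :=
  Real.log (detOn (mfderiv 𝓘(ℝ, E) 𝓘(ℝ, E) (f^[k]) p : E →L[ℝ] E).toLinearMap (toE E (V p))) / k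

/-- **Constant unstable periodic data and transitivity.**
Let `f` be a `C²` Anosov diffeomorphism of a closed connected manifold `M`, with splitting
`TM = Es ⊕ Eu`, such that `Λᵘ(p) = lam` for all periodic points `p`.

* If `f` is not transitive, then there are `n ≥ 1` and finite sets `P`, `Q` of fixed points of
  `fⁿ`, with `Λˢ < -lam` on `P` and `Λˢ > -lam` on `Q`, such that the points heteroclinic from `Q`
  to `P` are dense in `M`.
* In particular, if `Λˢ(p) ≤ -lam` for all periodic points `p`, or `Λˢ(p) ≥ -lam` for all periodic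
  points `p` (for instance if `Λˢ` is constant, too), then `f` is transitive. -/
theorem result (E : Type*) [NormedAddCommGroup E] [NormedSpace ℝ E] [FiniteDimensional ℝ E]
    (M : Type*) [TopologicalSpace M] [T2Space M] [CompactSpace M] [ConnectedSpace M]
    [ChartedSpace E M] [IsManifold 𝓘(ℝ, E) ∞ M] (f : Diffeomorph 𝓘(ℝ, E) 𝓘(ℝ, E) M M 1)
    (hf2 : ContMDiff 𝓘(ℝ, E) 𝓘(ℝ, E) 2 f) (hf2' : ContMDiff 𝓘(ℝ, E) 𝓘(ℝ, E) 2 f.symm)
    (Es Eu : ∀ x : M, Submodule ℝ (TangentSpace 𝓘(ℝ, E) x)) (hA : IsAnosov f Es Eu)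
    (lam : ℝ) (hlam : ∀ (k : ℕ) (p : M), 1 ≤ k → f^[k] p = p → Lam E f Eu k p = lam) :
    (¬ TopTransitive f → ∃ (n : ℕ) (P Q : Set M), 1 ≤ n ∧ P.Finite ∧ Q.Finite ∧
      (∀ p ∈ P, f^[n] p = p ∧ Lam E f Es n p < -lam) ∧
      (∀ q ∈ Q, f^[n] q = q ∧ -lam < Lam E f Es n q) ∧
      Dense {x : M | (∃ p ∈ P, Tendsto (fun k : ℕ => f^[n * k] x) atTop (𝓝 p)) ∧
        ∃ q ∈ Q, Tendsto (fun k : ℕ => f.symm^[n * k] x) atTop (𝓝 q)}) ∧
    ((∀ (k : ℕ) (p : M), 1 ≤ k → f^[k] p = p → Lam E f Es k p ≤ -lam) ∨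
      (∀ (k : ℕ) (p : M), 1 ≤ k → f^[k] p = p → -lam ≤ Lam E f Es k p) → TopTransitive f) := by
  have key : ∀ (n : ℕ) (p : M), 1 ≤ n → f^[n] p = p →
      Real.log (Pool.Agent.Y321.PJ.perJac E f n p) = n * (lam + Lam E f Es n p) := by
    intro n p hn hp
    obtain ⟨h1, h2, h3⟩ := Pool.Agent.Y321.PD.jac_pos f Es Eu hA n p hp
    have hn0 : (n : ℝ) ≠ 0 := by
      have : (1 : ℝ) ≤ n := by exact_mod_cast hn
      linarith
    have h4 : Lam E f Eu n p = Real.log (Pool.Agent.Y321.PD.jacOn E f Eu n p) / n := rfl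
    have h5 : Lam E f Es n p = Real.log (Pool.Agent.Y321.PD.jacOn E f Es n p) / n := rfl
    rw [h3, Real.log_mul h1.ne' h2.ne', ← hlam n p hn hp, h4, h5]
    field_simp
  have hpos : ∀ (n : ℕ) (p : M), f^[n] p = p → 0 < Pool.Agent.Y321.PJ.perJac E f n p := by
    intro n p hp
    obtain ⟨h1, h2, h3⟩ := Pool.Agent.Y321.PD.jac_pos f Es Eu hA n p hp
    rw [h3]
    exact mul_pos h1 h2
  have hmain : ¬ TopTransitive f → ∃ (n : ℕ) (P Q : Set M), 1 ≤ n ∧ P.Finite ∧ Q.Finite ∧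
      (∀ p ∈ P, f^[n] p = p ∧ Lam E f Es n p < -lam) ∧
      (∀ q ∈ Q, f^[n] q = q ∧ -lam < Lam E f Es n q) ∧
      Dense {x : M | (∃ p ∈ P, Tendsto (fun k : ℕ => f^[n * k] x) atTop (𝓝 p)) ∧
        ∃ q ∈ Q, Tendsto (fun k : ℕ => f.symm^[n * k] x) atTop (𝓝 q)} := by
    intro hnt
    obtain ⟨n, P, Q, hn, hPf, hQf, hP, hQ, hd⟩ :=
      Pool.Agent.Y321.PJ.main f hf2 hf2' Es Eu hA hnt
    have hn0 : (0 : ℝ) < n := by
      have : (1 : ℝ) ≤ n := by exact_mod_cast hn
      linarith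
    refine ⟨n, P, Q, hn, hPf, hQf, fun p hp => ?_, fun q hq => ?_, hd⟩
    · obtain ⟨h1, h2⟩ := hP p hp
      refine ⟨h1, ?_⟩
      have h3 := key n p hn h1
      have h4 := Real.log_neg (hpos n p h1) h2
      rw [h3] at h4
      by_contra h5
      push Not at h5
      exact absurd h4 (not_lt.mpr (mul_nonneg hn0.le (by linarith)))
    · obtain ⟨h1, h2⟩ := hQ q hq
      refine ⟨h1, ?_⟩
      have h3 := key n q hn h1
      have h4 := Real.log_pos h2
      rw [h3] at h4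
      by_contra h5
      push Not at h5
      exact absurd h4 (not_lt.mpr (mul_nonpos_of_nonneg_of_nonpos hn0.le (by linarith)))
  refine ⟨hmain, fun h => ?_⟩
  by_contra hnt
  obtain ⟨n, P, Q, hn, -, -, hP, hQ, hd⟩ := hmain hnt
  obtain ⟨x, ⟨p, hp, -⟩, ⟨q, hq, -⟩⟩ := hd.nonempty
  rcases h with h | h
  · exact absurd (h n q hn (hQ q hq).1) (not_le.mpr (hQ q hq).2)
  · exact absurd (h n p hn (hP p hp).1) (not_le.mpr (hP p hp).2)

end Pool.Agent.Results.MP_bd2638_an.StableDataDichotomy
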